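import Pool.Agent.Helper28.TL.StW

/-!
# Project TL, all weights, module W1: the central component is a twisted symbol modulo `p^M`
-/

set_option autoImplicit false

namespace Pool.Agent.Helper7.TLW

open Pool.Agent.Helper28.TL Pool.Agent.Helper28.WK Pool.Agent.Helper4.TL Pool.Agent.Helper14.CV
open Polynomial

private lemma map_eq (N : ℕ) (a : ℕ) (α β γ δ : ℤ) (hd : α * δ - β * γ = 1)
    (hb : (N : ℤ) ∣ β) (hc : (N : ℤ) ∣ γ) :
    (((C α * X + C β) ^ a * (C γ * X + C δ) ^ (2 * a - a) : ℤ[X]).map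
      (Int.castRingHom (ZMod N))) = X ^ a := by
  have h1 : ((β : ℤ) : ZMod N) = 0 := (ZMod.intCast_zmod_eq_zero_iff_dvd β N).2 hb
  have h2 : ((γ : ℤ) : ZMod N) = 0 := (ZMod.intCast_zmod_eq_zero_iff_dvd γ N).2 hc
  have h3 : (α : ZMod N) * (δ : ZMod N) = 1 := by
    have h4 : ((α * δ - β * γ : ℤ) : ZMod N) = 1 := by rw [hd]; simp
    push_cast at h4
    rw [h1, h2] at h4
    simpa using h4
  have h5 : 2 * a - a = a := by omega
  rw [h5]
  simp only [Polynomial.map_mul, Polynomial.map_pow, Polynomial.map_add, Polynomial.map_C,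
    Polynomial.map_X, Int.coe_castRingHom, h1, h2]
  rw [← mul_pow]
  congr 1
  have h6 : (C (α : ZMod N)) * C (δ : ZMod N) = 1 := by
    rw [← C_mul, h3, C_1]
  simp only [map_zero, add_zero, zero_mul, zero_add]
  calc C (α : ZMod N) * X * C (δ : ZMod N) = (C (α : ZMod N) * C (δ : ZMod N)) * X := by ring
    _ = X := by rw [h6, one_mul]

private lemma red_pr {p : ℕ} [Fact p.Prime] (M a : ℕ) (Φ : ℤ → ℤ → ℕ → ℤ_[p]) (P : ℤ[X])
    (hP : P.map (Int.castRingHom (ZMod (p ^ M))) = X ^ a) (x y : ℤ) :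
    PadicInt.toZModPow M (pr Φ P x y) = PadicInt.toZModPow M (Φ x y a) := by
  have hc : ∀ i, ((P.coeff i : ℤ) : ZMod (p ^ M)) = if i = a then 1 else 0 := by
    intro i
    have h1 := congrArg (fun Q => Polynomial.coeff Q i) hP
    simp only [Polynomial.coeff_map, eq_intCast, Polynomial.coeff_X_pow] at h1
    exact h1
  have h2 : pr Φ P x y = ∑ i ∈ Finset.range (P.natDegree + a + 1), P.coeff i • Φ x y i := by
    rw [pr_eq_sum Φ P (P.natDegree + a + 1) (by omega), Finset.sum_apply, Finset.sum_apply]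
    rfl
  rw [h2, map_sum, Finset.sum_eq_single a]
  · rw [map_zsmul, zsmul_eq_mul, hc, if_pos rfl, one_mul]
  · intro i _ hi
    rw [map_zsmul, zsmul_eq_mul, hc, if_neg hi, zero_mul]
  · intro h
    exact absurd (Finset.mem_range.2 (by omega)) h

/-- W1-E. -/
theorem hW1 : SEW1 := by
  intro p _ a ν Φ hν h M hM
  refine ⟨?_, ?_⟩
  · intro k x y hk hxy
    exact congrArg (PadicInt.toZModPow M) (h.hom a (by omega) k x y hk hxy)
  · intro α β γ δ hd hb hc
    have hb' : (p : ℤ) ∣ β := (dvd_pow_self (p : ℤ) (by omega)).trans hb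
    have hc' : (p : ℤ) ^ (ν + 1) ∣ γ := (pow_dvd_pow _ (by omega)).trans hc
    obtain ⟨c, hc2⟩ := h.eqv α β γ δ hd hb' hc' a (by omega)
    refine ⟨PadicInt.toZModPow M c, fun x y hxy => ?_⟩
    have h1 := congrArg (PadicInt.toZModPow M) (hc2 x y hxy)
    rw [map_add, Pi.smul_apply, Pi.smul_apply, map_zsmul,
      red_pr M a Φ _ (map_eq (p ^ M) a α β γ δ hd (by push_cast; exact hb)
      (by push_cast; exact (pow_dvd_pow _ (by omega)).trans hc))] at h1
    exact h1

end Pool.Agent.Helper7.TLW
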